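import Pool.Agent.EQC.Stmts

/-!
# Squad EQC, row CNI: the number of items
-/

open SimpleGraph Finset
open Pool.Agent.Helper51_Equitable (edges nbrs vertexSum nb IsEquitableProper Nice)

namespace Pool.Agent.EQC.H15c

open Classical in
theorem cnt_def {α : Type} [Fintype α] (p : α → Prop) : cnt p = (univ.filter p).card := rfl

theorem cnt_bij {α β : Type} [Fintype α] {p : α → Prop} (S : Finset β) (g : β → α)
    (hg : ∀ x ∈ S, ∀ y ∈ S, g x = g y → x = y) (h : ∀ x, p x ↔ ∃ y ∈ S, g y = x) :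
    cnt p = S.card := by
  classical
  have : (univ.filter p) = S.image g := by
    ext x
    rw [Finset.mem_filter, Finset.mem_image]
    constructor
    · exact fun hx => (h x).1 hx.2
    · exact fun hx => ⟨Finset.mem_univ _, (h x).2 hx⟩
  unfold cnt
  rw [this, Finset.card_image_of_injOn]
  exact fun x hx y hy hxy => hg x hx y hy hxy

theorem cnt_sum {α β : Type} [Fintype α] [Fintype β] (p : α ⊕ β → Prop) :
    cnt p = cnt (fun x => p (Sum.inl x)) + cnt (fun x => p (Sum.inr x)) := by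
  classical
  have h : (univ.filter p) = (univ.filter fun x => p (Sum.inl x)).disjSum
      (univ.filter fun x => p (Sum.inr x)) := by
    ext x
    rcases x with x | x
    · rw [Finset.inl_mem_disjSum, Finset.mem_filter, Finset.mem_filter]
      exact ⟨fun h => ⟨Finset.mem_univ _, h.2⟩, fun h => ⟨Finset.mem_univ _, h.2⟩⟩
    · rw [Finset.inr_mem_disjSum, Finset.mem_filter, Finset.mem_filter]
      exact ⟨fun h => ⟨Finset.mem_univ _, h.2⟩, fun h => ⟨Finset.mem_univ _, h.2⟩⟩
  unfold cnt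
  rw [h, Finset.card_disjSum]

theorem cnt_false {α : Type} [Fintype α] {p : α → Prop} (h : ∀ x, ¬ p x) : cnt p = 0 := by
  classical
  unfold cnt
  rw [Finset.card_eq_zero, Finset.filter_eq_empty_iff]
  exact fun x _ => h x

variable {V : Type} [Fintype V] {G : SimpleGraph V} {D c : ℕ} {d : Dat G D}

/-- the items with free vertex `v` -/
theorem cnt_at (s : Sel c d) (v : V) :
    cnt (fun i : Idx V c => Ok s i ∧ Fr i = v) = (s.NF v).card + ((s.WF v).card +
      cnt (fun tj : V × Fin (4 * c + 11) => (LT G D d.Out tj.1 ∧ Act d tj.1) ∧ tj.1 = v)) := by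
  rw [cnt_sum, cnt_sum]
  have h1 : cnt (fun x : V × V => Ok s (Sum.inl x) ∧ Fr (c := c) (Sum.inl x) = v) =
      (s.NF v).card := by
    refine cnt_bij _ (fun x => (x, v)) (fun x _ y _ h => (Prod.mk.inj h).1) ?_
    rintro ⟨x, w⟩
    constructor
    · rintro ⟨a1, a2⟩
      have a3 : w = v := a2
      subst a3
      exact ⟨x, a1, rfl⟩
    · rintro ⟨y, hy, h⟩
      obtain ⟨rfl, rfl⟩ := Prod.mk.inj h
      exact ⟨hy, rfl⟩
  have h2 : cnt (fun x : V × V => Ok s (Sum.inr (Sum.inl x)) ∧
      Fr (c := c) (Sum.inr (Sum.inl x)) = v) = (s.WF v).card := by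
    refine cnt_bij _ (fun x => (x, v)) (fun x _ y _ h => (Prod.mk.inj h).1) ?_
    rintro ⟨x, w⟩
    constructor
    · rintro ⟨a1, a2⟩
      have a3 : w = v := a2
      subst a3
      exact ⟨x, a1, rfl⟩
    · rintro ⟨y, hy, h⟩
      obtain ⟨rfl, rfl⟩ := Prod.mk.inj h
      exact ⟨hy, rfl⟩
  rw [h1, h2]
  rfl

theorem cnt_act (s : Sel c d) {v : V} (hv : Act d v) :
    cnt (fun i : Idx V c => Ok s i ∧ Fr i = v) = 4 * c + 11 + 7 * (qn G D v / c) := by
  rw [cnt_at]
  by_cases hL : LT G D d.Out v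
  · have h1 : cnt (fun tj : V × Fin (4 * c + 11) => (LT G D d.Out tj.1 ∧ Act d tj.1) ∧ tj.1 = v) =
        (Finset.univ : Finset (Fin (4 * c + 11))).card := by
      refine cnt_bij _ (fun j => (v, j)) (fun x _ y _ h => (Prod.mk.inj h).2) ?_
      rintro ⟨t, j⟩
      constructor
      · rintro ⟨-, a2⟩
        have a3 : t = v := a2
        subst a3
        exact ⟨j, Finset.mem_univ _, rfl⟩
      · rintro ⟨y, hy, h⟩
        obtain ⟨rfl, rfl⟩ := Prod.mk.inj h
        exact ⟨⟨hL, hv⟩, rfl⟩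
    rw [h1, Finset.card_univ, Fintype.card_fin]
    have h2 := s.card_lt v hv hL
    omega
  · have h1 : cnt (fun tj : V × Fin (4 * c + 11) => (LT G D d.Out tj.1 ∧ Act d tj.1) ∧ tj.1 = v) =
        0 := by
      refine cnt_false ?_
      rintro ⟨t, j⟩ ⟨⟨a1, -⟩, a2⟩
      have a3 : t = v := a2
      subst a3
      exact hL a1
    rw [h1]
    have h2 := s.card_not v hv hL
    omega

theorem cnt_not_act (s : Sel c d) {v : V} (hv : ¬ Act d v) :
    cnt (fun i : Idx V c => Ok s i ∧ Fr i = v) = 0 := by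
  rw [cnt_at]
  obtain ⟨h2, h3⟩ := s.act v hv
  have h1 : cnt (fun tj : V × Fin (4 * c + 11) => (LT G D d.Out tj.1 ∧ Act d tj.1) ∧ tj.1 = v) =
      0 := by
    refine cnt_false ?_
    rintro ⟨t, j⟩ ⟨⟨-, a1⟩, a2⟩
    have a3 : t = v := a2
    subst a3
    exact hv a1
  rw [h1, h2, h3, Finset.card_empty]

theorem qn_le (v : V) : qn G D v ≤ dg G v := by
  classical
  unfold qn dg cnt nbrs
  refine Finset.card_le_card fun u hu => ?_
  rw [Finset.mem_filter] at hu ⊢
  exact ⟨hu.1, hu.2.1⟩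

theorem sum_dg : ∑ v, dg G v = 2 * (edges G).card := by
  classical
  have h := SimpleGraph.sum_degrees_eq_twice_card_edges G
  have h1 : ∀ v, dg G v = G.degree v := by
    intro v
    unfold dg nbrs
    rw [← SimpleGraph.card_neighborFinset_eq_degree, SimpleGraph.neighborFinset_eq_filter]
  rw [Finset.sum_congr rfl fun v _ => h1 v, h]
  unfold edges
  refine congrArg (fun x => 2 * x) (congrArg Finset.card ?_)
  ext e
  rw [SimpleGraph.mem_edgeFinset]

/-- Row CNI. -/
theorem cni : CniStmt := by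
  classical
  intro V _ G c D d s hbig
  refine ⟨fun v hv => cnt_act s hv, ?_⟩
  have hc : 7000 ≤ c := hbig.1
  have hD : 2000 * (4 * c + 11) + 6 ≤ D := hbig.2
  have h1 : cnt (fun i : Idx V c => Ok s i) =
      ∑ v ∈ univ.filter (fun v => Act d v), (4 * c + 11 + 7 * (qn G D v / c)) := by
    have h2 : cnt (fun i : Idx V c => Ok s i) =
        ∑ v : V, cnt (fun i : Idx V c => Ok s i ∧ Fr i = v) := by
      unfold cnt
      rw [Finset.card_eq_sum_card_fiberwise (f := fun i : Idx V c => Fr i)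
        (t := (Finset.univ : Finset V)) (fun _ _ => Finset.mem_coe.2 (Finset.mem_univ _))]
      refine Finset.sum_congr rfl fun v _ => ?_
      rw [Finset.filter_filter]
      refine congrArg Finset.card (Finset.ext fun x => ?_)
      simp only [Finset.mem_filter]
    rw [h2, Finset.sum_filter]
    refine Finset.sum_congr rfl fun v _ => ?_
    by_cases hv : Act d v
    · rw [if_pos hv, cnt_act s hv]
    · rw [if_neg hv, cnt_not_act s hv]
  rw [h1]
  obtain ⟨A, hA⟩ : ∃ A : Finset V, A = univ.filter (fun v => Act d v) := ⟨_, rfl⟩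
  rw [← hA]
  have hs : ∑ v ∈ A, dg G v ≤ 2 * (edges G).card := by
    rw [← sum_dg (G := G)]
    exact Finset.sum_le_sum_of_subset (Finset.subset_univ _)
  have key : ∀ v ∈ A, 1000 * (4 * c + 11 + 7 * (qn G D v / c)) ≤ 2 * dg G v := by
    intro v hv
    rw [hA, Finset.mem_filter] at hv
    have g1 : D ≤ dg G v := hv.2.1
    have g2 : qn G D v ≤ dg G v := qn_le v
    have g3 : c * (qn G D v / c) ≤ qn G D v := Nat.mul_div_le _ _
    have g4 : 7000 * (qn G D v / c) ≤ c * (qn G D v / c) := Nat.mul_le_mul_right _ hc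
    omega
  have h3 : 1000 * ∑ v ∈ A, (4 * c + 11 + 7 * (qn G D v / c)) ≤ 2 * ∑ v ∈ A, dg G v := by
    rw [Finset.mul_sum, Finset.mul_sum]
    exact Finset.sum_le_sum key
  omega

end Pool.Agent.EQC.H15c
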