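import Pool.Agent.EQC.Stmts

/-!
# Squad EQC, row TYP: types and the items which are not used
-/

open SimpleGraph Finset
open Pool.Agent.Helper51_Equitable (edges nbrs vertexSum nb IsEquitableProper Nice)

namespace Pool.Agent.EQC.H15

theorem cnt_mono {α : Type} [Fintype α] {p q : α → Prop} (h : ∀ x, p x → q x) : cnt p ≤ cnt q := by
  classical
  unfold cnt
  refine Finset.card_le_card fun x hx => ?_
  rw [Finset.mem_filter] at hx ⊢
  exact ⟨hx.1, h x hx.2⟩

theorem cnt_inj {α β : Type} [Fintype α] [Fintype β] {p : α → Prop} {q : β → Prop} (f : α → β)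
    (hf : ∀ x y, f x = f y → x = y) (h : ∀ x, p x → q (f x)) : cnt p ≤ cnt q := by
  classical
  unfold cnt
  refine Finset.card_le_card_of_injOn f (fun x hx => ?_) (fun x _ y _ hxy => hf x y hxy)
  rw [Finset.mem_coe, Finset.mem_filter] at hx ⊢
  exact ⟨Finset.mem_univ _, h x hx.2⟩

/-- counting in a finset -/
theorem cnt_le_card {α β : Type} [Fintype α] {p : α → Prop} (S : Finset β) (f : α → β)
    (hf : ∀ x y, f x = f y → x = y) (h : ∀ x, p x → f x ∈ S) : cnt p ≤ S.card := by
  classical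
  unfold cnt
  refine Finset.card_le_card_of_injOn f (fun x hx => ?_) (fun x _ y _ hxy => hf x y hxy)
  rw [Finset.mem_coe, Finset.mem_filter] at hx
  exact Finset.mem_coe.2 (h x hx.2)

theorem card_le_cnt {α β : Type} [Fintype α] {p : α → Prop} (S : Finset β) (f : α → β)
    (h : ∀ y ∈ S, ∃ x, p x ∧ f x = y) : S.card ≤ cnt p := by
  classical
  unfold cnt
  have : S ⊆ ((Finset.univ : Finset α).filter p).image f := by
    intro y hy
    obtain ⟨x, hx, rfl⟩ := h y hy
    rw [Finset.mem_image]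
    exact ⟨x, Finset.mem_filter.2 ⟨Finset.mem_univ _, hx⟩, rfl⟩
  exact (Finset.card_le_card this).trans Finset.card_image_le

/-- the choice of the types for one vertex -/
theorem choose_sets {ι : Type} [DecidableEq ι] (I R : Finset ι) (k B : ℕ) (hR : R ⊆ I)
    (hI : I.card = k + 12 + B) (hRk : R.card ≤ k + 12) :
    ∃ A S : Finset ι, A ⊆ I ∧ S ⊆ I ∧ (∀ i ∈ A, i ∉ S) ∧ k ≤ A.card ∧ 6 + B ≤ S.card ∧
      (R = ∅ → 12 + B ≤ S.card) ∧ (A ∩ R).card ≤ k ∧ (S ∩ R).card ≤ 6 := by
  by_cases h : R.card ≤ k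
  · obtain ⟨A, hRA, hAI, hA⟩ := Finset.exists_subsuperset_card_eq hR h (by omega)
    refine ⟨A, I \ A, hAI, Finset.sdiff_subset, fun i hi hi' => (Finset.mem_sdiff.1 hi').2 hi,
      hA.ge, ?_, ?_, ?_, ?_⟩
    · rw [Finset.card_sdiff_of_subset hAI]; omega
    · intro _
      rw [Finset.card_sdiff_of_subset hAI]; omega
    · exact (Finset.card_le_card Finset.inter_subset_left).trans hA.le
    · have : (I \ A) ∩ R = ∅ := by
        rw [Finset.eq_empty_iff_forall_notMem]
        intro i hi
        rw [Finset.mem_inter, Finset.mem_sdiff] at hi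
        exact hi.1.2 (hRA hi.2)
      rw [this, Finset.card_empty]
      exact Nat.zero_le _
  · push Not at h
    obtain ⟨A, hAR, hA⟩ := Finset.exists_subset_card_eq h.le
    have hRA : (R \ A).card = R.card - k := by rw [Finset.card_sdiff_of_subset hAR, hA]
    obtain ⟨U, hUR, hU⟩ := Finset.exists_subset_card_eq
      (show min 6 (R.card - k) ≤ (R \ A).card by rw [hRA]; exact min_le_right _ _)
    have hUR' : U ⊆ R := hUR.trans Finset.sdiff_subset
    have hdis : Disjoint (I \ R) U := by
      rw [Finset.disjoint_left]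
      intro i hi hi'
      exact (Finset.mem_sdiff.1 hi).2 (hUR' hi')
    have hS : ((I \ R) ∪ U).card = (I.card - R.card) + min 6 (R.card - k) := by
      rw [Finset.card_union_of_disjoint hdis, Finset.card_sdiff_of_subset hR, hU]
    refine ⟨A, (I \ R) ∪ U, hAR.trans hR, Finset.union_subset Finset.sdiff_subset (hUR'.trans hR),
      fun i hi hi' => ?_, hA.ge, ?_, ?_, ?_, ?_⟩
    · rcases Finset.mem_union.1 hi' with h1 | h1
      · exact (Finset.mem_sdiff.1 h1).2 (hAR hi)
      · exact (Finset.mem_sdiff.1 (hUR h1)).2 hi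
    · rw [hS]; omega
    · intro h0
      rw [h0, Finset.card_empty] at h
      omega
    · exact (Finset.card_le_card Finset.inter_subset_left).trans hA.le
    · have : ((I \ R) ∪ U) ∩ R ⊆ U := by
        intro i hi
        rw [Finset.mem_inter, Finset.mem_union, Finset.mem_sdiff] at hi
        rcases hi.1 with h1 | h1
        · exact absurd hi.2 h1.2
        · exact h1
      refine (Finset.card_le_card this).trans ?_
      rw [hU]; exact min_le_left _ _

/-- Row TYP. -/
theorem typ : TypStmt := by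
  classical
  intro V _ G c D ι _ hbig T
  have hc : 1 ≤ c := by have := hbig.1; omega
  let I : V → Finset ι := fun v => Finset.univ.filter fun i => T.fr i = v
  let R : V → Finset ι := fun v => (I v).filter fun i => T.r0 ∈ T.e1 i
  let Ac : V → Prop := fun v => Hi G D v ∧ v ≠ T.r0 ∧ 1 ≤ qn G D v
  have memI : ∀ v i, i ∈ I v ↔ T.fr i = v := fun v i => by
    simp only [I, Finset.mem_filter, Finset.mem_univ, true_and]
  have memR : ∀ v i, i ∈ R v ↔ T.fr i = v ∧ T.r0 ∈ T.e1 i := fun v i => by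
    simp only [R, Finset.mem_filter, memI]
  have key : ∀ v, ∃ A S : Finset ι, (Ac v → A ⊆ I v ∧ S ⊆ I v ∧ (∀ i ∈ A, i ∉ S) ∧
      4 * c - 1 ≤ A.card ∧ 6 + 7 * (qn G D v / c) ≤ S.card ∧
      (R v = ∅ → 12 + 7 * (qn G D v / c) ≤ S.card) ∧ (A ∩ R v).card ≤ 4 * c - 1 ∧
      (S ∩ R v).card ≤ 6) ∧ (¬ Ac v → A = ∅ ∧ S = ∅) := by
    intro v
    by_cases hv : Ac v
    · have hI : (I v).card = 4 * c + 11 + 7 * (qn G D v / c) := T.count v hv.1 hv.2.1 hv.2.2
      have hR : (R v).card ≤ 4 * c + 11 := by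
        refine le_trans ?_ T.r0_few
        refine card_le_cnt (R v) id fun i hi => ⟨i, ((memR v i).1 hi).2, rfl⟩
      obtain ⟨A, S, h1, h2, h3, h4, h5, h6, h7, h8⟩ := choose_sets (I v) (R v) (4 * c - 1)
        (7 * (qn G D v / c)) (Finset.filter_subset _ _) (by omega) (by omega)
      exact ⟨A, S, fun _ => ⟨h1, h2, h3, h4, h5, h6, h7, h8⟩, fun h => absurd hv h⟩
    · exact ⟨∅, ∅, fun h => absurd h hv, fun _ => ⟨rfl, rfl⟩⟩
  choose A S hA hN using key
  refine ⟨{i : ι // i ∈ A (T.fr i) ∨ i ∈ S (T.fr i)}, inferInstance, ⟨?_⟩⟩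
  have act_of : ∀ i, (i ∈ A (T.fr i) ∨ i ∈ S (T.fr i)) → Ac (T.fr i) := by
    intro i hi
    by_contra hc
    obtain ⟨h1, h2⟩ := hN _ hc
    rw [h1, h2] at hi
    rcases hi with h | h
    · exact absurd h (Finset.notMem_empty _)
    · exact absurd h (Finset.notMem_empty _)
  exact
    { e0 := fun i => T.e0 i.1
      e1 := fun i => T.e1 i.1
      fr := fun i => T.fr i.1
      ty := fun i => decide (i.1 ∈ A (T.fr i.1))
      rk := T.rk
      r0 := T.r0
      s0 := T.s0
      e0_mem := fun i => T.e0_mem i.1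
      e1_mem := fun i => T.e1_mem i.1
      e0_inj := fun i j h => Subtype.ext (T.e0_inj _ _ h)
      e1_inj := fun i j h => Subtype.ext (T.e1_inj _ _ h)
      e01 := fun i j => T.e01 i.1 j.1
      fr_mem := fun i => T.fr_mem i.1
      rk_inj := T.rk_inj
      rk_first := T.rk_first
      plus := fun u h1 h2 => (cnt_inj (fun i => i.1) (fun _ _ h => Subtype.ext h)
        (fun _ h => h)).trans (T.plus u h1 h2)
      minus := fun u h1 h2 => (cnt_inj (fun i => i.1) (fun _ _ h => Subtype.ext h)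
        (fun _ h => h)).trans (T.minus u h1 h2)
      r0_e0 := fun i => T.r0_e0 i.1
      r0_e1 := fun i => T.r0_e1 i.1
      r0_A := by
        by_cases hs : Ac T.s0
        · refine (cnt_le_card (A T.s0 ∩ R T.s0) (fun i => i.1) (fun _ _ h => Subtype.ext h)
            (fun i hi => ?_)).trans (hA T.s0 hs).2.2.2.2.2.2.1
          have h1 := T.r0_e1 i.1 hi.2
          have h2 : i.1 ∈ A (T.fr i.1) := of_decide_eq_true hi.1
          rw [h1] at h2
          exact Finset.mem_inter.2 ⟨h2, (memR _ _).2 ⟨h1, hi.2⟩⟩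
        · refine (cnt_le_card (∅ : Finset ι) (fun i => i.1) (fun _ _ h => Subtype.ext h)
            (fun i hi => ?_)).trans (by rw [Finset.card_empty]; exact Nat.zero_le _)
          have h1 := T.r0_e1 i.1 hi.2
          have h2 := act_of i.1 i.2
          rw [h1] at h2
          exact absurd h2 hs
      r0_B := by
        by_cases hs : Ac T.s0
        · refine (cnt_le_card (S T.s0 ∩ R T.s0) (fun i => i.1) (fun _ _ h => Subtype.ext h)
            (fun i hi => ?_)).trans (hA T.s0 hs).2.2.2.2.2.2.2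
          have h1 := T.r0_e1 i.1 hi.2
          have h2 : i.1 ∉ A (T.fr i.1) := of_decide_eq_false hi.1
          have h3 : i.1 ∈ S (T.fr i.1) := i.2.resolve_left h2
          rw [h1] at h3
          exact Finset.mem_inter.2 ⟨h3, (memR _ _).2 ⟨h1, hi.2⟩⟩
        · refine (cnt_le_card (∅ : Finset ι) (fun i => i.1) (fun _ _ h => Subtype.ext h)
            (fun i hi => ?_)).trans (by rw [Finset.card_empty]; exact Nat.zero_le _)
          have h1 := T.r0_e1 i.1 hi.2
          have h2 := act_of i.1 i.2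
          rw [h1] at h2
          exact absurd h2 hs
      cA := by
        intro v h1 h2 h3
        obtain ⟨g1, g2, g3, g4, -⟩ := hA v ⟨h1, h2, h3⟩
        refine g4.trans (card_le_cnt (A v) (fun i => i.1) fun i hi => ?_)
        have h4 := (memI v i).1 (g1 hi)
        have h5 : i ∈ A (T.fr i) := by rw [h4]; exact hi
        exact ⟨⟨i, Or.inl h5⟩, ⟨h4, decide_eq_true h5⟩, rfl⟩
      cB := by
        intro v h1 h2 h3 h4
        obtain ⟨g1, g2, g3, -, -, g6, -⟩ := hA v ⟨h1, h2, h3⟩
        have hR : R v = ∅ := by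
          rw [Finset.eq_empty_iff_forall_notMem]
          intro i hi
          obtain ⟨a1, a2⟩ := (memR v i).1 hi
          exact h4 (a1.symm.trans (T.r0_e1 i a2))
        refine (g6 hR).trans (card_le_cnt (S v) (fun i => i.1) fun i hi => ?_)
        have h5 := (memI v i).1 (g2 hi)
        have h6 : i ∈ S (T.fr i) := by rw [h5]; exact hi
        have h7 : i ∉ A (T.fr i) := by rw [h5]; exact fun h => g3 i h hi
        exact ⟨⟨i, Or.inr h6⟩, ⟨h5, decide_eq_false h7⟩, rfl⟩
      cS := by
        intro h1 h2 h3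
        obtain ⟨g1, g2, g3, -, g5, -⟩ := hA T.s0 ⟨h1, h2, h3⟩
        refine g5.trans (card_le_cnt (S T.s0) (fun i => i.1) fun i hi => ?_)
        have h5 := (memI T.s0 i).1 (g2 hi)
        have h6 : i ∈ S (T.fr i) := by rw [h5]; exact hi
        have h7 : i ∉ A (T.fr i) := by rw [h5]; exact fun h => g3 i h hi
        exact ⟨⟨i, Or.inr h6⟩, ⟨h5, decide_eq_false h7⟩, rfl⟩
      low := fun u w h1 h2 h3 h4 => by
        obtain ⟨e, he, a1, a2, a3, a4⟩ := T.low u w h1 h2 h3 h4
        exact ⟨e, he, a1, a2, fun i => a3 i.1, fun i => a4 i.1⟩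
      total := by
        refine le_trans (Nat.mul_le_mul_left _ ?_) T.total
        exact Fintype.card_subtype_le _ }

end Pool.Agent.EQC.H15
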